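import Pool.Agent.Helper75.PX.Stmts5

/-! Row C3a of project PX (MP_ce4989_al): degree three in characteristic three. -/

set_option autoImplicit false

universe u

open Module TensorProduct

namespace Pool.Agent.Helper75.PX

/-- the generators are carried over by algebra homomorphisms -/
theorem C3a_map {K A B : Type*} [Field K] [Ring A] [Algebra K A] [Ring B] [Algebra K B]
    (f : A →ₐ[K] B) {x j : A} {a c : K} (h : D3a x j a c) : D3a (f x) (f j) a c where
  hx := by
    have := congrArg f h.hx
    simpa only [map_mul, map_add, AlgHom.commutes] using this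
  hjx := by
    have := congrArg f h.hjx
    simpa only [map_mul, map_add, map_one] using this
  hj := by
    have := congrArg f h.hj
    simpa only [map_mul, AlgHom.commutes] using this
  c0 := h.c0

/-- the matrices -/
theorem C3a_mat {K : Type*} [Field K] (h3 : (3 : K) = 0) :
    D3a (!![0, 0, 0; 0, 1, 0; 0, 0, 2] : Matrix (Fin 3) (Fin 3) K)
      (!![0, 1, 0; 0, 0, 1; 1, 0, 0] : Matrix (Fin 3) (Fin 3) K) (0 : K) (1 : K) := by
  refine ⟨?_, ?_, ?_, one_ne_zero⟩
  · rw [map_zero, add_zero]
    ext r s
    fin_cases r <;> fin_cases s <;> simp [Matrix.mul_apply, Fin.sum_univ_three]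
    linear_combination 2 * h3
  · ext r s
    fin_cases r <;> fin_cases s <;>
      simp [Matrix.mul_apply, Fin.sum_univ_three, Matrix.one_apply]
    · norm_num
    · linear_combination - h3
  · rw [map_one]
    ext r s
    fin_cases r <;> fin_cases s <;> simp [Matrix.mul_apply, Fin.sum_univ_three]

theorem st_C3a (h1 : ST_WA.{u}) (h2 : ST_TZ3.{u}) (h3 : ST_AX3.{u}) : ST_C3a.{u} := by
  intro K A _ _ _ _ _ hA h3'
  have : FiniteDimensional K A := FiniteDimensional.of_finrank_pos (by omega)
  obtain ⟨n, D, _, _, hn, _, _, hf, ⟨e⟩⟩ := h1 K A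
  rw [hA] at hf
  have hD : 0 < finrank K D := finrank_pos
  have hn3 : n = 1 ∨ n = 3 := by
    have hle : n ≤ 3 := by
      by_contra hc
      have : 4 ≤ n := by omega
      nlinarith
    interval_cases n
    · exact Or.inl rfl
    · omega
    · exact Or.inr rfl
  rcases hn3 with rfl | rfl
  · have hD9 : finrank K D = 9 := by omega
    obtain ⟨u, c, hu, hne⟩ := h2 K D hD9
    obtain ⟨x, a, hx⟩ := h3 K D hD9 h3' u c hu hne
    have k1 := C3a_map (Matrix.scalarAlgHom (Fin 1) K) hx
    exact ⟨_, _, _, _, C3a_map e.symm.toAlgHom k1⟩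
  · have k1 := C3a_map ((Algebra.ofId K D).mapMatrix (m := Fin 3)) (C3a_mat h3')
    exact ⟨_, _, _, _, C3a_map e.symm.toAlgHom k1⟩

end Pool.Agent.Helper75.PX
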