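import Pool.Agent.Helper75.PX.Stmts4

/-! # Row SPS: splitting of a central simple algebra over the separable closure -/

set_option autoImplicit false

universe u

open Module TensorProduct

namespace Pool.Agent.Helper75.PX

theorem sps_central (K L A : Type u) [Field K] [Field L] [Algebra K L] [Ring A] [Algebra K A]
    [Algebra.IsCentral K A] : Algebra.IsCentral L (L ⊗[K] A) := by
  constructor
  intro z hz
  rw [Subalgebra.mem_center_iff] at hz
  have h1 : z ∈ Subalgebra.centralizer K
      ((Algebra.TensorProduct.includeRight : A →ₐ[K] L ⊗[K] A).range : Set (L ⊗[K] A)) := by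
    rw [Subalgebra.mem_centralizer_iff]
    intro y _
    exact hz y
  rw [Subalgebra.centralizer_range_includeRight_eq_center_tensorProduct] at h1
  obtain ⟨w, rfl⟩ := h1
  rw [Algebra.mem_bot]
  clear hz
  induction w using TensorProduct.induction_on with
  | zero => exact ⟨0, by rw [map_zero, map_zero]⟩
  | tmul c a =>
    obtain ⟨a, ha⟩ := a
    rw [Algebra.IsCentral.center_eq_bot, Algebra.mem_bot] at ha
    obtain ⟨k, rfl⟩ := ha
    refine ⟨k • c, ?_⟩
    change _ = c ⊗ₜ[K] algebraMap K A k
    rw [Algebra.TensorProduct.algebraMap_apply, Algebra.algebraMap_eq_smul_one k,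
      TensorProduct.tmul_smul, TensorProduct.smul_tmul']
    rfl
  | add x y hx hy =>
    obtain ⟨a, ha⟩ := hx
    obtain ⟨b, hb⟩ := hy
    exact ⟨a + b, by rw [map_add, map_add, ha, hb]⟩

theorem st_SPS (hS : ST_SIMP.{u}) (hW : ST_WA.{u}) (hC : ST_SEPC.{u}) : ST_SPS.{u} := by
  intro K A _ _ _ _ _ n hn hA
  have : FiniteDimensional K A := FiniteDimensional.of_finrank_pos (by rw [hA]; positivity)
  have : IsSimpleRing (SeparableClosure K ⊗[K] A) := hS K (SeparableClosure K) A
  have : Algebra.IsCentral (SeparableClosure K) (SeparableClosure K ⊗[K] A) :=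
    sps_central K (SeparableClosure K) A
  obtain ⟨m, D, _, _, hm0, _, _, hdim, ⟨e0⟩⟩ := hW (SeparableClosure K) (SeparableClosure K ⊗[K] A)
  have hD := hC (SeparableClosure K) D
  have hbij : Function.Bijective (Algebra.ofId (SeparableClosure K) D) := by
    refine ⟨(algebraMap (SeparableClosure K) D).injective, fun d => ?_⟩
    have h1 : (⊥ : Subalgebra (SeparableClosure K) D) = ⊤ :=
      Subalgebra.bot_eq_top_iff_finrank_eq_one.2 hD
    have h2 : d ∈ (⊥ : Subalgebra (SeparableClosure K) D) := by rw [h1]; trivial
    rw [Algebra.mem_bot] at h2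
    exact h2
  let g : SeparableClosure K ≃ₐ[SeparableClosure K] D := AlgEquiv.ofBijective _ hbij
  let e : (SeparableClosure K ⊗[K] A) ≃ₐ[SeparableClosure K]
      Matrix (Fin m) (Fin m) (SeparableClosure K) := e0.trans g.symm.mapMatrix
  have hm : m = n := by
    rw [Module.finrank_baseChange, hA, hD, mul_one] at hdim
    exact (Nat.pow_left_injective (n := 2) (by norm_num) hdim).symm
  subst hm
  refine ⟨(e.toAlgHom.restrictScalars K).comp
    (Algebra.TensorProduct.includeRight : A →ₐ[K] SeparableClosure K ⊗[K] A), ?_⟩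
  rw [Submodule.eq_top_iff']
  intro M
  have key : ∀ z : SeparableClosure K ⊗[K] A, e z ∈ Submodule.span (SeparableClosure K)
      (Set.range ((e.toAlgHom.restrictScalars K).comp
        (Algebra.TensorProduct.includeRight : A →ₐ[K] SeparableClosure K ⊗[K] A))) := by
    intro z
    induction z using TensorProduct.induction_on with
    | zero => rw [map_zero]; exact Submodule.zero_mem _
    | tmul c a =>
      have h1 : c ⊗ₜ[K] a = c • ((1 : SeparableClosure K) ⊗ₜ[K] a) := by
        rw [TensorProduct.smul_tmul', smul_eq_mul, mul_one]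
      rw [h1, map_smul]
      exact Submodule.smul_mem _ _ (Submodule.subset_span ⟨a, rfl⟩)
    | add x y hx hy => rw [map_add]; exact Submodule.add_mem _ hx hy
  have h2 := key (e.symm M)
  rwa [e.apply_symm_apply] at h2

end Pool.Agent.Helper75.PX
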